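import Pool.Agent.Lead.Cov2

namespace Pool.Agent.Results.MP_a2c283_pr.Counterexample

open Pool.Agent.Lead.Cov

theorem result : ∀ α c : ℝ, 0 < α → 0 < c → ∀ K : ℕ,
    ∃ (V : Type) (_ : Fintype V) (_ : DecidableEq V) (G : SimpleGraph V) (_ : DecidableRel G.Adj)
      (k : ℕ) (u : Fin k → V), G.Connected ∧
      (∀ (j : ℕ) (x : Fin (j + 1) → V) (A : Finset V), Summable fun t => unc G t x A) ∧
      K < k ∧ (k : ℝ) ≤ Real.exp (α * (cover G / hmax G)) ∧
      c * k * ET G u Finset.univ < cover G := by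
  intro α c hα hc K
  obtain ⟨N, k, hN, hK, h1, h2⟩ := main α c hα hc K
  exact ⟨VV N, inferInstance, inferInstance, GG N, inferInstance, k + 1, fun _ => (none, false),
    conn, fun _ x A => unc_summable (hsum (by omega)) (hit_le hN) x A, by omega, h1, h2⟩

end Pool.Agent.Results.MP_a2c283_pr.Counterexample
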